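import Pool.Agent.N833.VG.Final

/-!
# The growth rate of the number of visibility graphs of simple polygons

`N n` is the number of isomorphism classes of visibility graphs of simple polygons with `n`
vertices, `NGP n` the same number for polygons without three collinear vertices. For all `n ≥ 100`,
`n log₂ n / 16 ≤ log₂ (NGP n) ≤ log₂ (N n) ≤ 9 n log₂ n`.
-/

namespace Pool.Agent.Results.MP_af711c_co.GrowthRate

open Vis124

/-- `log₂ N(n)` is of order `n log n`; more precisely
`n log₂ n / 16 ≤ log₂ (NGP n) ≤ log₂ (N n) ≤ 9 n log₂ n` for all `n ≥ 100`. -/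
theorem result :
    (∀ n : ℕ, 100 ≤ n →
      n * Real.logb 2 n / 16 ≤ Real.logb 2 (NGP n) ∧
      Real.logb 2 (NGP n) ≤ Real.logb 2 (N n) ∧
      Real.logb 2 (N n) ≤ 9 * (n * Real.logb 2 n)) ∧
    (fun n : ℕ => Real.logb 2 (N n)) =Θ[Filter.atTop] (fun n : ℕ => (n : ℝ) * Real.logb 2 n) := by
  refine ⟨fun n hn => Pool.Agent.N833.VG.bounds hn, ?_, ?_⟩
  · refine Asymptotics.IsBigO.of_bound 9 ?_
    filter_upwards [Filter.eventually_ge_atTop 100] with n hn
    obtain ⟨h1, h2, h3⟩ := Pool.Agent.N833.VG.bounds hn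
    have h0 : 0 ≤ (n : ℝ) * Real.logb 2 n :=
      mul_nonneg (Nat.cast_nonneg n) (Pool.Agent.N833.VG.logb_nonneg' (by omega))
    have h4 : 0 ≤ Real.logb 2 (N n) := by linarith
    rw [Real.norm_of_nonneg h4, Real.norm_of_nonneg h0]
    exact h3
  · refine Asymptotics.IsBigO.of_bound 16 ?_
    filter_upwards [Filter.eventually_ge_atTop 100] with n hn
    obtain ⟨h1, h2, h3⟩ := Pool.Agent.N833.VG.bounds hn
    have h0 : 0 ≤ (n : ℝ) * Real.logb 2 n :=
      mul_nonneg (Nat.cast_nonneg n) (Pool.Agent.N833.VG.logb_nonneg' (by omega))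
    have h4 : 0 ≤ Real.logb 2 (N n) := by linarith
    rw [Real.norm_of_nonneg h4, Real.norm_of_nonneg h0]
    linarith

end Pool.Agent.Results.MP_af711c_co.GrowthRate
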